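import Pool.Agent.helper4.GA.Spec
import Pool.Agent.helper32.Cant.Basic

/-!
# ga:PT1, the pattern of levels
-/

set_option autoImplicit false

open Finset
open Pool.Agent.helper32.Cant

namespace Pool.Agent.GA

theorem PT1_lt {g T : ℕ} (hg : 1 ≤ g) (o : Fin (T + 1) → Fin (2 * g)) (t : ℕ) :
    pick g o t < 2 * g * (t + 1) := by
  unfold pick
  have h1 : 2 * g * (t + 1) = 2 * g * t + 2 * g := by ring
  rw [h1]
  by_cases h : t < T + 1
  · rw [dif_pos h]
    have := (o ⟨t, h⟩).isLt
    omega
  · rw [dif_neg h]
    omega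

theorem PT1_ge {g T : ℕ} (o : Fin (T + 1) → Fin (2 * g)) (t : ℕ) :
    2 * g * t ≤ pick g o t := by
  unfold pick
  exact Nat.le_add_right _ _

theorem PT1_mono {g T : ℕ} (hg : 1 ≤ g) (o : Fin (T + 1) → Fin (2 * g)) {s t : ℕ} (h : s ≤ t) :
    pick g o s ≤ pick g o t := by
  rcases Nat.lt_or_ge s t with h1 | h1
  · have h2 := PT1_lt hg o s
    have h3 := PT1_ge o t
    have h4 : 2 * g * (s + 1) ≤ 2 * g * t := Nat.mul_le_mul_left _ h1
    omega
  · have : s = t := le_antisymm h h1
    rw [this]

theorem PT1_sumf (l : List ℕ) (Q : ℕ → Prop) [DecidablePred Q] (f : ℕ → ℝ) :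
    ((l.filter fun t => decide (Q t)).map f).sum = (l.map fun t => ind (Q t) * f t).sum := by
  induction l with
  | nil => rfl
  | cons a l ih =>
    rw [List.map_cons, List.sum_cons, ← ih]
    by_cases h : Q a
    · rw [List.filter_cons_of_pos (by simpa using h), List.map_cons, List.sum_cons, ind_of h,
        one_mul]
    · rw [List.filter_cons_of_neg (by simpa using h), ind_of_not h, zero_mul, zero_add]

theorem PT1_sumr (f : ℕ → ℝ) : ∀ T : ℕ, ((List.range T).map f).sum = ∑ t ∈ range T, f t := by
  intro T
  induction T with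
  | zero => rfl
  | succ T ih =>
    rw [List.range_succ, List.map_append, List.sum_append, ih, Finset.sum_range_succ,
      List.map_cons, List.map_nil, List.sum_cons, List.sum_nil, add_zero]

theorem PT1 : PT1_stmt := by
  intro g κ T o hg hκ
  obtain ⟨A, hA⟩ : ∃ A : List ℕ, A = ((List.range T).filter
    (fun t => decide (pick g o t + g ≤ pick g o (t + 1)))).map (pick g o) := ⟨_, rfl⟩
  have hpat : pat g κ o = A ++ [κ] := by
    rw [hA]
    rfl
  have hmem : ∀ i ∈ A, i + g ≤ κ := by
    intro i hi
    rw [hA] at hi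
    obtain ⟨t, ht, rfl⟩ := List.mem_map.mp hi
    have ht' : t < T := List.mem_range.mp (List.mem_filter.mp ht).1
    have h1 := PT1_lt hg o t
    have h2 : 2 * g * (t + 1) ≤ 2 * g * T := Nat.mul_le_mul_left _ ht'
    omega
  have hdrop : (pat g κ o).dropLast = A := by
    rw [hpat, List.dropLast_concat]
  refine ⟨?_, ?_, ?_, ?_, ?_, ?_⟩
  · rw [hpat]
    simp
  · rw [hpat]
    have htr : IsTrans ℕ (fun i j => i + g ≤ j) := ⟨fun x y z hxy hyz => by omega⟩
    rw [List.isChain_iff_pairwise, List.pairwise_append]
    refine ⟨?_, List.pairwise_singleton _ _, ?_⟩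
    · rw [hA, List.pairwise_map, List.pairwise_filter]
      refine List.Pairwise.imp ?_ List.pairwise_lt_range
      intro s t hst hs _
      have hs' : pick g o s + g ≤ pick g o (s + 1) := by simpa using hs
      exact le_trans hs' (PT1_mono hg o hst)
    · intro a ha b hb
      rw [List.mem_singleton.mp hb]
      exact hmem a ha
  · intro i hi
    rw [hpat] at hi
    rcases List.mem_append.mp hi with h | h
    · have := hmem i h
      omega
    · rw [List.mem_singleton.mp h]
  · rw [hpat, List.length_append, List.length_singleton, hA, List.length_map]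
    have h1 := List.length_filter_le (fun t => decide (pick g o t + g ≤ pick g o (t + 1)))
      (List.range T)
    rw [List.length_range] at h1
    omega
  · rw [hdrop]
    exact hmem
  · intro ω
    rw [hdrop, hA, List.map_map, PT1_sumf, PT1_sumr]
    rfl

end Pool.Agent.GA
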