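import Pool.Agent.helper4.GA.Spec
import Pool.Agent.helper32.Cant.Basic
import Pool.Agent.helper44.Cant.GEO

/-!
# ga:UPP, the mass of a ball is bounded
-/

set_option autoImplicit false

open Finset
open Pool.Agent.helper32.Cant

namespace Pool.Agent.GA

theorem UPP_nrm_le {M : ℕ} [NeZero M] (v : ZMod M) (z : ℤ) (h : (z : ZMod M) = v) :
    nrm v ≤ |(z : ℝ)| := by
  have h1 : ((v.valMinAbs : ℤ) : ZMod M) = (z : ZMod M) := by
    rw [ZMod.coe_valMinAbs, h]
  have h2 := ZMod.natAbs_min_of_le_div_two M v.valMinAbs z h1 (ZMod.natAbs_valMinAbs_le v)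
  have h3 : |v.valMinAbs| ≤ |z| := by
    rw [Int.abs_eq_natAbs, Int.abs_eq_natAbs]
    exact_mod_cast h2
  unfold nrm
  rw [← Int.cast_abs, ← Int.cast_abs]
  exact_mod_cast h3

theorem UPP_nrm_add {M : ℕ} [NeZero M] (v : ZMod M) (d : ℤ) :
    nrm v ≤ nrm (v + (d : ZMod M)) + |(d : ℝ)| := by
  have h := UPP_nrm_le v ((v + (d : ZMod M)).valMinAbs - d) (by
    rw [Int.cast_sub, ZMod.coe_valMinAbs, add_sub_cancel_right])
  refine le_trans h ?_
  rw [Int.cast_sub]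
  refine le_trans (abs_sub _ _) ?_
  exact le_refl _

theorem UPP_geo (x : ℝ) (hx0 : 0 ≤ x) (hx1 : x < 1) (S : Finset ℤ) :
    ∑ k ∈ S, x ^ k.natAbs ≤ 2 * (1 / (1 - x)) := by
  classical
  have hs : Summable fun m : ℕ => x ^ m := summable_geometric_of_lt_one hx0 hx1
  have ht : ∑' m : ℕ, x ^ m = 1 / (1 - x) := by
    rw [tsum_geometric_of_lt_one hx0 hx1, one_div]
  have key : ∀ T : Finset ℤ, Set.InjOn Int.natAbs (T : Set ℤ) →
      ∑ k ∈ T, x ^ k.natAbs ≤ 1 / (1 - x) := by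
    intro T hT
    have h1 : ∑ k ∈ T, x ^ k.natAbs = ∑ m ∈ T.image Int.natAbs, x ^ m := by
      rw [Finset.sum_image hT]
    rw [h1, ← ht]
    exact hs.sum_le_tsum _ fun m _ => pow_nonneg hx0 m
  rw [← Finset.sum_filter_add_sum_filter_not S (fun k => 0 ≤ k)]
  have h1 := key (S.filter fun k => 0 ≤ k) (by
    intro a ha b hb hab
    have ha' := (Finset.mem_filter.mp (Finset.mem_coe.mp ha)).2
    have hb' := (Finset.mem_filter.mp (Finset.mem_coe.mp hb)).2
    have hab' : a.natAbs = b.natAbs := hab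
    omega)
  have h2 := key (S.filter fun k => ¬ 0 ≤ k) (by
    intro a ha b hb hab
    have ha' := (Finset.mem_filter.mp (Finset.mem_coe.mp ha)).2
    have hb' := (Finset.mem_filter.mp (Finset.mem_coe.mp hb)).2
    have hab' : a.natAbs = b.natAbs := hab
    omega)
  linarith

theorem UPP_card (S : Finset ℤ) (q : ℕ) :
    ((S.filter fun k => k.natAbs ≤ q).card : ℝ) ≤ 2 * q + 1 := by
  have h1 : (S.filter fun k => k.natAbs ≤ q) ⊆ Finset.Icc (-(q : ℤ)) q := by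
    intro k hk
    have := (Finset.mem_filter.mp hk).2
    rw [Finset.mem_Icc]
    omega
  have h2 := Finset.card_le_card h1
  rw [Int.card_Icc] at h2
  have h3 : (S.filter fun k => k.natAbs ≤ q).card ≤ 2 * q + 1 := by omega
  exact_mod_cast h3

theorem UPP : UPP_stmt := by
  intro n c κ j p x hjκ hκn
  classical
  -- notation
  obtain ⟨q, hq⟩ : ∃ q : ℕ, q = 3 ^ (n - j) := ⟨_, rfl⟩
  obtain ⟨Q, hQ⟩ : ∃ Q : ℕ, Q = 3 ^ (n - κ) := ⟨_, rfl⟩
  have hQq : Q ≤ q := by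
    rw [hq, hQ]
    exact Nat.pow_le_pow_right (by norm_num) (by omega)
  have hQ1 : 1 ≤ Q := by
    rw [hQ]
    exact Nat.one_le_pow _ _ (by norm_num)
  have hq1 : 1 ≤ q := le_trans hQ1 hQq
  obtain ⟨T, hT⟩ : ∃ T : ℤ, T = ((p.1.val : ℕ) : ℤ) + (c.R x : ℤ) * E p.2 := ⟨_, rfl⟩
  obtain ⟨t, ht⟩ : ∃ t : Fin (3 ^ n) → ZMod (3 ^ (2 * n)),
    ∀ y, t y = ((3 ^ n * ((y : ℕ) : ℤ) + T : ℤ) : ZMod (3 ^ (2 * n))) := ⟨_, fun y => rfl⟩
  obtain ⟨s, hs⟩ : ∃ s : Fin (3 ^ n) → ℤ, ∀ y, s y = (t y).valMinAbs := ⟨_, fun y => rfl⟩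
  obtain ⟨k, hk⟩ : ∃ k : Fin (3 ^ n) → ℤ, ∀ y, k y = s y / 3 ^ n := ⟨_, fun y => rfl⟩
  have h3n : (0 : ℤ) < 3 ^ n := by positivity
  have hM : ((3 ^ (2 * n) : ℕ) : ℤ) = 3 ^ n * 3 ^ n := by
    push_cast
    rw [← pow_add]
    congr 1
    ring
  -- the class of `s y`
  have hsd : ∀ y, ∃ m : ℤ, s y = 3 ^ n * ((y : ℕ) : ℤ) + T + 3 ^ n * 3 ^ n * m := by
    intro y
    have h1 : (((s y - (3 ^ n * ((y : ℕ) : ℤ) + T)) : ℤ) : ZMod (3 ^ (2 * n))) = 0 := by
      rw [Int.cast_sub, hs, ZMod.coe_valMinAbs, ht, sub_self]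
    rw [ZMod.intCast_zmod_eq_zero_iff_dvd] at h1
    obtain ⟨m, hm⟩ := h1
    rw [hM] at hm
    exact ⟨m, by linarith⟩
  have hmod : ∀ y, s y % 3 ^ n = T % 3 ^ n := by
    intro y
    obtain ⟨m, hm⟩ := hsd y
    have h1 : s y = T + 3 ^ n * (((y : ℕ) : ℤ) + 3 ^ n * m) := by
      rw [hm]
      ring
    rw [h1, Int.add_mul_emod_self_left]
  have hkinj : Function.Injective k := by
    intro y y' hyy
    have h1 : s y = s y' := by
      have e1 := Int.mul_ediv_add_emod (s y) (3 ^ n)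
      have e2 := Int.mul_ediv_add_emod (s y') (3 ^ n)
      rw [← e1, ← e2, hmod y, hmod y', ← hk, ← hk, hyy]
    obtain ⟨m, hm⟩ := hsd y
    obtain ⟨m', hm'⟩ := hsd y'
    have h2 : (3 : ℤ) ^ n * (((y : ℕ) : ℤ) - ((y' : ℕ) : ℤ)) = 3 ^ n * (3 ^ n * (m' - m)) := by
      rw [h1] at hm
      rw [hm] at hm'
      linear_combination hm'
    have h3 : ((y : ℕ) : ℤ) - ((y' : ℕ) : ℤ) = 3 ^ n * (m' - m) :=
      mul_left_cancel₀ h3n.ne' h2
    have hy := y.isLt
    have hy' := y'.isLt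
    have hyc : ((y : ℕ) : ℤ) < 3 ^ n := by exact_mod_cast hy
    have hyc' : ((y' : ℕ) : ℤ) < 3 ^ n := by exact_mod_cast hy'
    have h0 : (0 : ℤ) ≤ ((y : ℕ) : ℤ) := Int.natCast_nonneg _
    have h0' : (0 : ℤ) ≤ ((y' : ℕ) : ℤ) := Int.natCast_nonneg _
    have hmm : m' - m = 0 := by
      have hlt : |(3 : ℤ) ^ n * (m' - m)| < 3 ^ n := by
        rw [← h3, abs_lt]
        constructor <;> linarith
      rw [abs_mul, abs_of_pos h3n] at hlt
      have h5 : |m' - m| < 1 := by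
        by_contra hcon
        have h6 : 1 ≤ |m' - m| := not_lt.mp hcon
        nlinarith
      have h7 : |m' - m| = 0 := by
        have := abs_nonneg (m' - m)
        omega
      exact abs_eq_zero.mp h7
    rw [hmm, mul_zero] at h3
    apply Fin.ext
    have : ((y : ℕ) : ℤ) = ((y' : ℕ) : ℤ) := by linarith
    exact_mod_cast this
  -- lower bound for `|s y|`
  have hslow : ∀ y, (3 : ℝ) ^ n * (((k y).natAbs : ℝ) - 1) ≤ nrm (t y) := by
    intro y
    have e1 := Int.mul_ediv_add_emod (s y) (3 ^ n)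
    rw [← hk] at e1
    have e2 := Int.emod_nonneg (s y) h3n.ne'
    have e3 := Int.emod_lt_of_pos (s y) h3n
    have h1 : (3 : ℤ) ^ n * (|k y| - 1) ≤ |s y| := by
      rcases le_or_gt 0 (k y) with h | h
      · rw [abs_of_nonneg h]
        have h2 : s y ≤ |s y| := le_abs_self _
        nlinarith
      · rw [abs_of_neg h]
        have h2 : -s y ≤ |s y| := neg_le_abs _
        nlinarith
    have h2 : nrm (t y) = ((|s y| : ℤ) : ℝ) := by
      unfold nrm
      rw [← hs, Int.cast_abs]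
    rw [h2]
    have h3 : (((k y).natAbs : ℕ) : ℝ) = ((|k y| : ℤ) : ℝ) := by
      rw [Nat.cast_natAbs]
    rw [h3]
    exact_mod_cast h1
  -- the shift
  have hu : ∀ y, uv c p y = t y + ((((c.R y : ℤ) - c.R x) * E p.2 : ℤ) : ZMod (3 ^ (2 * n))) := by
    intro y
    have h1 : p.1 = (((p.1.val : ℕ) : ℤ) : ZMod (3 ^ (2 * n))) := by
      rw [Int.cast_natCast, ZMod.natCast_val, ZMod.cast_id', id]
    show ((yi c (y, p.2) : ℤ) : ZMod (3 ^ (2 * n))) + p.1 = _
    rw [ht, ← Int.cast_add]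
    conv_lhs => rw [h1]
    rw [← Int.cast_add]
    congr 1
    rw [hT]
    show (3 ^ n * ((y : ℕ) : ℤ) + (c.R y : ℤ) * E p.2) + ((p.1.val : ℕ) : ℤ) = _
    ring
  obtain ⟨X, hX⟩ : ∃ X : ℝ, X = Real.exp (-(1 / (2 * (Q : ℝ)))) := ⟨_, rfl⟩
  have hQr : (1 : ℝ) ≤ Q := by exact_mod_cast hQ1
  have hqr : (1 : ℝ) ≤ q := by exact_mod_cast hq1
  have hQqr : (Q : ℝ) ≤ q := by exact_mod_cast hQq
  have hX0 : 0 ≤ X := by
    rw [hX]
    exact (Real.exp_pos _).le
  have hX1 : X < 1 := by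
    rw [hX]
    have h0 : 0 < 1 / (2 * (Q : ℝ)) := by positivity
    have h1 : Real.exp (-(1 / (2 * (Q : ℝ)))) < Real.exp 0 := Real.exp_lt_exp.mpr (by linarith)
    rwa [Real.exp_zero] at h1
  have hX2 : 1 / (1 - X) ≤ 1 + 2 * (Q : ℝ) := by
    have h1 : 0 < 1 - X := by linarith
    rw [div_le_iff₀ h1]
    have h2 : 1 / (2 * (Q : ℝ)) + 1 ≤ Real.exp (1 / (2 * (Q : ℝ))) := Real.add_one_le_exp _
    have h3 : X * Real.exp (1 / (2 * (Q : ℝ))) = 1 := by
      rw [hX, ← Real.exp_add, neg_add_cancel, Real.exp_zero]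
    have h4 : X * (1 / (2 * (Q : ℝ)) + 1) ≤ 1 := by
      have h5 := mul_le_mul_of_nonneg_left h2 hX0
      rwa [h3] at h5
    have h5 : X * (1 / (2 * (Q : ℝ)) + 1) * (2 * (Q : ℝ)) ≤ 1 * (2 * (Q : ℝ)) :=
      mul_le_mul_of_nonneg_right h4 (by positivity)
    have h6 : X * (1 / (2 * (Q : ℝ)) + 1) * (2 * (Q : ℝ)) = X * (1 + 2 * Q) := by
      field_simp
    rw [h6] at h5
    linarith
  have hℓ : (3 : ℝ) ^ (2 * n - κ) = 3 ^ n * Q := by
    rw [hQ]
    push_cast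
    rw [← pow_add]
    congr 1
    omega
  -- every term
  have hterm : ∀ y, wt c κ p y * ind (|(c.R y : ℤ) - c.R x| ≤ 3 ^ (n - j)) ≤
      (if (k y).natAbs ≤ q then (1 : ℝ) else 0) + Real.exp 1 * X ^ (k y).natAbs := by
    intro y
    have hw0 : 0 ≤ wt c κ p y := (Real.exp_pos _).le
    have hw1 : wt c κ p y ≤ 1 := by
      unfold wt chi
      apply Real.exp_le_one_iff.mpr
      have : 0 ≤ nrm (uv c p y) / 3 ^ (2 * n - κ) := div_nonneg (abs_nonneg _) (by positivity)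
      linarith
    have hr0 : 0 ≤ Real.exp 1 * X ^ (k y).natAbs :=
      mul_nonneg (Real.exp_pos _).le (pow_nonneg hX0 _)
    by_cases hR : |(c.R y : ℤ) - c.R x| ≤ 3 ^ (n - j)
    · rw [ind_of hR, mul_one]
      by_cases hkq : (k y).natAbs ≤ q
      · rw [if_pos hkq]
        linarith
      · rw [if_neg hkq, zero_add]
        have hkq' : (q : ℝ) ≤ ((k y).natAbs : ℝ) := by
          exact_mod_cast (not_le.mp hkq).le
        have h1 := UPP_nrm_add (t y) (((c.R y : ℤ) - c.R x) * E p.2)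
        rw [← hu y] at h1
        have h2 : 2 * |((((c.R y : ℤ) - c.R x) * E p.2 : ℤ) : ℝ)| ≤ (q : ℝ) * 3 ^ n := by
          rw [← Int.cast_abs, abs_mul]
          have h3 := abs_E_le p.2
          have h4 : 2 * (|(c.R y : ℤ) - c.R x| * |E p.2|) ≤ (q : ℤ) * 3 ^ n := by
            have h5 : (q : ℤ) = 3 ^ (n - j) := by
              rw [hq]
              push_cast
              rfl
            rw [h5]
            have h6 : 0 ≤ |E p.2| := abs_nonneg _
            have h7 : 0 ≤ |(c.R y : ℤ) - c.R x| := abs_nonneg _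
            calc 2 * (|(c.R y : ℤ) - c.R x| * |E p.2|) = |(c.R y : ℤ) - c.R x| * (2 * |E p.2|) := by
                  ring
              _ ≤ |(c.R y : ℤ) - c.R x| * (3 ^ n) :=
                  mul_le_mul_of_nonneg_left (by linarith) h7
              _ ≤ 3 ^ (n - j) * 3 ^ n := mul_le_mul_of_nonneg_right hR h3n.le
          exact_mod_cast h4
        have h3 := hslow y
        have h3nr : (0 : ℝ) < 3 ^ n := by positivity
        have h4 : (3 : ℝ) ^ n * (((k y).natAbs : ℝ) / 2 - 1) ≤ nrm (uv c p y) := by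
          nlinarith
        unfold wt chi
        rw [hℓ, hX, ← Real.exp_nat_mul, ← Real.exp_add]
        apply Real.exp_le_exp.mpr
        have hpos : (0 : ℝ) < 3 ^ n * Q := by positivity
        have h5 : (((k y).natAbs : ℝ) / 2 - 1) / Q ≤ nrm (uv c p y) / (3 ^ n * Q) := by
          rw [div_le_div_iff₀ (by linarith) hpos]
          nlinarith
        have h6 : (((k y).natAbs : ℝ) / 2 - 1) / Q = ((k y).natAbs : ℝ) * (1 / (2 * (Q : ℝ))) - 1 / Q := by
          field_simp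
        have h7 : 1 / (Q : ℝ) ≤ 1 := by
          rw [div_le_one (by linarith)]
          exact hQr
        rw [h6] at h5
        have h8 : ((k y).natAbs : ℝ) * -(1 / (2 * (Q : ℝ))) = -(((k y).natAbs : ℝ) * (1 / (2 * (Q : ℝ)))) := by
          ring
        rw [h8]
        linarith
    · rw [ind_of_not hR, mul_zero]
      have : (0 : ℝ) ≤ (if (k y).natAbs ≤ q then (1 : ℝ) else 0) := by
        by_cases h : (k y).natAbs ≤ q
        · rw [if_pos h]
          norm_num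
        · rw [if_neg h]
      linarith
  have hsum : mj n c.R (wt c κ p) j x ≤
      ∑ y, ((if (k y).natAbs ≤ q then (1 : ℝ) else 0) + Real.exp 1 * X ^ (k y).natAbs) :=
    Finset.sum_le_sum fun y _ => hterm y
  have h1 : ∑ y, (if (k y).natAbs ≤ q then (1 : ℝ) else 0) ≤ 2 * q + 1 := by
    have e : ∑ y, (if (k y).natAbs ≤ q then (1 : ℝ) else 0) =
        ∑ z ∈ univ.image k, (if z.natAbs ≤ q then (1 : ℝ) else 0) := by
      rw [Finset.sum_image fun a _ b _ h => hkinj h]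
    rw [e, Finset.sum_boole]
    exact UPP_card _ q
  have h2 : ∑ y, X ^ (k y).natAbs ≤ 2 * (1 / (1 - X)) := by
    have e : ∑ y, X ^ (k y).natAbs = ∑ z ∈ univ.image k, X ^ z.natAbs := by
      rw [Finset.sum_image fun a _ b _ h => hkinj h]
    rw [e]
    exact UPP_geo X hX0 hX1 _
  rw [Finset.sum_add_distrib, ← Finset.mul_sum] at hsum
  have he : Real.exp 1 ≤ 3 := by
    have := Real.exp_one_lt_d9
    linarith
  have he0 : 0 < Real.exp 1 := Real.exp_pos _
  have h3 : Real.exp 1 * ∑ y, X ^ (k y).natAbs ≤ 3 * (2 * (1 + 2 * (Q : ℝ))) := by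
    have h4 : 0 ≤ ∑ y, X ^ (k y).natAbs := Finset.sum_nonneg fun y _ => pow_nonneg hX0 _
    calc Real.exp 1 * ∑ y, X ^ (k y).natAbs ≤ 3 * ∑ y, X ^ (k y).natAbs :=
          mul_le_mul_of_nonneg_right he h4
      _ ≤ 3 * (2 * (1 + 2 * (Q : ℝ))) := by linarith
  have hfin : (40 : ℝ) * 3 ^ (n - j) = 40 * q := by
    rw [hq]
    push_cast
    rfl
  rw [hfin]
  linarith

end Pool.Agent.GA
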